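import Mathlib

namespace Pool.Agent.Results.MP_bd62ae_co.Expand

/-- g is the nim-sequence of the subtraction game with subtraction set S -/
def IsNim (S : Finset ℕ) (g : ℕ → ℕ) : Prop :=
  ∀ n, IsLeast {m | ∀ s ∈ S, s ≤ n → g (n - s) ≠ m} (g n)

def T : List ℕ := [0, 0, 0, 1, 1, 1, 0, 0, 0, 1, 1, 1, 2, 2, 0, 3, 3, 1, 2, 2, 0, 3, 3, 1, 0, 2]

def g0 (n : ℕ) : ℕ := if n < 26 then T.getD n 0 else n % 2

lemma small : ∀ n < 41, (∀ s ∈ ({3, 11, 15} : Finset ℕ), s ≤ n → g0 (n - s) ≠ g0 n) ∧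
    ∀ m < g0 n, ∃ s ∈ ({3, 11, 15} : Finset ℕ), s ≤ n ∧ g0 (n - s) = m := by decide +kernel

lemma big {n : ℕ} (h : 26 ≤ n) : g0 n = n % 2 := by simp [g0, h]

lemma nim0 : IsNim {3, 11, 15} g0 := by
  intro n
  by_cases hn : n < 41
  · refine ⟨(small n hn).1, fun m hm => ?_⟩
    by_contra hlt
    obtain ⟨s, hs, h1, h2⟩ := (small n hn).2 m (by omega)
    exact hm s hs h1 h2
  · constructor
    · intro s hs _
      simp only [Finset.mem_insert, Finset.mem_singleton] at hs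
      rw [big (n := n - s) (by omega), big (n := n) (by omega)]
      omega
    · intro m hm
      have := hm 3 (by simp) (by omega)
      rw [big (n := n - 3) (by omega)] at this
      rw [big (n := n) (by omega)]
      omega

lemma uniq {S : Finset ℕ} (hS : ∀ s ∈ S, 0 < s) {g h : ℕ → ℕ} (hg : IsNim S g) (hh : IsNim S h) :
    g = h := by
  funext n
  induction n using Nat.strong_induction_on with
  | _ n ih =>
    have e : ∀ s ∈ S, s ≤ n → g (n - s) = h (n - s) :=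
      fun s hs _ => ih (n - s) (by have := hS s hs; omega)
    exact le_antisymm ((hg n).2 fun s hs h1 => e s hs h1 ▸ (hh n).1 s hs h1)
      ((hh n).2 fun s hs h1 => e s hs h1 ▸ (hg n).1 s hs h1)

theorem result : ∃ (S : Finset ℕ) (g : ℕ → ℕ), (∀ s ∈ S, 0 < s) ∧ IsNim S g ∧
    (∀ h, IsNim S h → h = g) ∧
    (∃ n₀, ∀ k, g (n₀ + 2 * k) = 0 ∧ g (n₀ + 2 * k + 1) = 1) ∧
    {s | 0 < s ∧ ∀ n, g (n + s) ≠ g n} ≠ (S : Set ℕ) ∧
    {s | 0 < s ∧ ∀ n, g (n + s) ≠ g n} ≠ {t | ∃ s ∈ S, ∃ m, t = s + 2 * m} := by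
  have hS : ∀ s ∈ ({3, 11, 15} : Finset ℕ), 0 < s := by decide
  refine ⟨{3, 11, 15}, g0, hS, nim0, fun h hh => uniq hS hh nim0, ⟨26, fun k => ?_⟩, ?_, ?_⟩
  · rw [big (by omega), big (by omega)]; omega
  · intro h
    have h9 : 9 ∈ {s | 0 < s ∧ ∀ n, g0 (n + s) ≠ g0 n} := by
      refine ⟨by norm_num, fun n => ?_⟩
      by_cases hn : n < 26
      · revert n; decide +kernel
      · rw [big (by omega), big (by omega)]; omega
    rw [h] at h9
    simp at h9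
  · intro h
    have h5 : 5 ∈ {t | ∃ s ∈ ({3, 11, 15} : Finset ℕ), ∃ m, t = s + 2 * m} :=
      ⟨3, by simp, 1, rfl⟩
    rw [← h] at h5
    exact h5.2 1 (by decide)

end Pool.Agent.Results.MP_bd62ae_co.Expand
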